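import Pool.Agent.Helper93.KS.St2

/-!
# Project KS (MP_77e955_nt), second part, module PSI: the characters of `n ^ 2 - 4`
-/

set_option autoImplicit false

namespace Pool.Agent.Helper62.KS

open Finset Filter Topology Pool.Agent.Helper93.KS
open Pool.Agent.Helper15.AB (SP StML)
open Pool.Agent.Helper9.TW (gm)
open Pool.Agent.Helper93.KP (gk vk tk rn gn TK qk StRTS)

private theorem castD {n : ℕ} (hn : 3 ≤ n) : (((n ^ 2 - 4 : ℕ)) : ℤ) = (n : ℤ) ^ 2 - 4 := by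
  have h4 : 4 ≤ n ^ 2 := by nlinarith
  rw [Nat.cast_sub h4]
  push_cast
  ring

private theorem posD {n : ℕ} (hn : 3 ≤ n) : 1 ≤ n ^ 2 - 4 := by
  have h9 : 9 ≤ n ^ 2 := by nlinarith
  omega

private theorem dvdD {n p : ℕ} (hn : 3 ≤ n) : (p : ℤ) ∣ (n : ℤ) ^ 2 - 4 ↔ p ∣ n ^ 2 - 4 := by
  rw [← castD hn]
  exact Int.natCast_dvd_natCast

/-- two equal characters give a square -/
private theorem key (hS : StSQR) (hP : StPEL) {n n' : ℕ} (hn : 3 ≤ n) (hlt : n < n') (hlt2 : n' < 2 * n)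
    (h : ∀ p : ℕ, p.Prime → 7 ≤ p → ¬ p ∣ n ^ 2 - 4 → ¬ p ∣ n' ^ 2 - 4 →
      jacobiSym (((n ^ 2 - 4 : ℕ)) : ℤ) p = jacobiSym (((n' ^ 2 - 4 : ℕ)) : ℤ) p) : False := by
  have hn' : 3 ≤ n' := by omega
  have hD := posD hn
  have hD' := posD hn'
  obtain ⟨r, hr⟩ : IsSquare ((n ^ 2 - 4) * (n' ^ 2 - 4)) := by
    refine hS _ (Nat.mul_pos hD hD') fun p hp h7 hpd => ?_
    have h1 : ¬ p ∣ n ^ 2 - 4 := fun k => hpd (k.mul_right _)
    have h2 : ¬ p ∣ n' ^ 2 - 4 := fun k => hpd (k.mul_left _)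
    rw [Nat.cast_mul, jacobiSym.mul_left, ← h p hp h7 h1 h2, ← sq]
    apply jacobiSym.sq_one
    rw [Int.gcd_natCast_natCast]
    exact ((Nat.Prime.coprime_iff_not_dvd hp).2 h1).symm
  refine hP n n' r (by exact_mod_cast hn) (by exact_mod_cast hlt) (by exact_mod_cast hlt2) (Int.natCast_nonneg r) ?_
  rw [← castD hn, ← castD hn', ← Nat.cast_mul, hr]
  push_cast
  ring

theorem hPSI (hR : StRNL) (hJ : StJCH) (hS : StSQR) (hP : StPEL) : StPSI := by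
  have hex : ∀ n : ℕ, ∃ (f : ℕ) (_ : NeZero f) (ψ : DirichletCharacter ℂ f), 3 ≤ n → ψ.IsPrimitive ∧ f ≤ 4 * (n ^ 2 - 4) ∧
      ∀ p : ℕ, p.Prime → p ≠ 2 → ¬ p ∣ n ^ 2 - 4 → ψ (p : ZMod f) = ((jacobiSym (((n ^ 2 - 4 : ℕ)) : ℤ) p : ℤ) : ℂ) := by
    intro n
    by_cases hn : 3 ≤ n
    · obtain ⟨f, hf, ψ, h⟩ := hJ (n ^ 2 - 4) (posD hn)
      exact ⟨f, hf, ψ, fun _ => h⟩
    · exact ⟨1, inferInstance, 1, fun h => absurd h hn⟩
  choose f hf ψ h using hex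
  refine ⟨f, hf, ψ, ?_, ?_⟩
  · intro n hn
    obtain ⟨h1, h2, h3⟩ := h n hn
    refine ⟨h1, ?_, ?_⟩
    · have : n ^ 2 - 4 ≤ n ^ 2 := Nat.sub_le _ _
      omega
    · intro p hp h7 hpd
      rw [h3 p hp (by omega) (fun k => hpd ((dvdD hn).2 k)), hR n p hp h7 hpd, castD hn]
      push_cast
      rfl
  · intro N hN n hn n' hn' hne
    rw [mem_Ioc] at hn hn'
    by_contra hcon
    push Not at hcon
    have h3 : 3 ≤ n := by omega
    have h3' : 3 ≤ n' := by omega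
    have hjac : ∀ p : ℕ, p.Prime → 7 ≤ p → ¬ p ∣ n ^ 2 - 4 → ¬ p ∣ n' ^ 2 - 4 →
        jacobiSym (((n ^ 2 - 4 : ℕ)) : ℤ) p = jacobiSym (((n' ^ 2 - 4 : ℕ)) : ℤ) p := by
      intro p hp h7 h1 h2
      have e1 := (h n h3).2.2 p hp (by omega) h1
      have e2 := (h n' h3').2.2 p hp (by omega) h2
      have e3 := hcon p
      rw [e1, e2] at e3
      exact_mod_cast e3
    rcases lt_or_gt_of_ne hne with hlt | hlt
    · exact key hS hP h3 hlt (by omega) hjac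
    · exact key hS hP h3' hlt (by omega) fun p hp h7 h1 h2 => (hjac p hp h7 h2 h1).symm

end Pool.Agent.Helper62.KS
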