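import Pool.Agent.Helper93.KS.St

/-!
# Project KS (MP_77e955_nt), module PT5: the weights of Richert for five prime factors
-/

set_option autoImplicit false

namespace Pool.Agent.Helper62.KS

open Finset Filter Topology Pool.Agent.Helper93.KS

private theorem pow_card_le (y : ℝ) (hy : 0 ≤ y) (m : ℕ) : m ≠ 0 → (∀ p : ℕ, p.Prime → p ∣ m → y ≤ (p : ℝ)) →
    y ^ (ArithmeticFunction.cardFactors m) ≤ (m : ℝ) := by
  induction m using Nat.recOnMul with
  | zero => exact fun h => absurd rfl h
  | one => intro _ _; simp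
  | prime p hp =>
    intro _ h
    rw [ArithmeticFunction.cardFactors_apply_prime hp, pow_one]
    exact h p hp dvd_rfl
  | mul a b ha hb =>
    intro hab h
    have ha0 : a ≠ 0 := fun h0 => hab (by rw [h0, zero_mul])
    have hb0 : b ≠ 0 := fun h0 => hab (by rw [h0, mul_zero])
    rw [ArithmeticFunction.cardFactors_mul ha0 hb0, pow_add, Nat.cast_mul]
    exact mul_le_mul (ha ha0 fun p hp hd => h p hp (hd.mul_right b)) (hb hb0 fun p hp hd => h p hp (hd.mul_left a))
      (pow_nonneg hy _) (Nat.cast_nonneg _)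

private theorem sqfree_case (u n v : ℕ) (hu : 1 ≤ u) (ha : 2 ≤ n) (hv1 : 1 ≤ v) (hv : (v : ℝ) ≤ (n : ℝ) ^ 2)
    (hz : ∀ p : ℕ, p.Prime → p ∣ v → (n : ℝ) ^ (11 / 100 : ℝ) ≤ (p : ℝ)) (hsf : Squarefree v)
    (hsum : ∑ j ∈ Ico (11 * u) (58 * u), 392 / 1000 * (1 - (j : ℝ) / (58 * u)) * (ejq n (1 / (100 * u)) j v : ℝ) < 1) :
    ArithmeticFunction.cardFactors v ≤ 5 := by
  have hk0 : v ≠ 0 := by omega
  have hur : (0 : ℝ) < (u : ℝ) := by exact_mod_cast hu
  have har : (2 : ℝ) ≤ (n : ℝ) := by exact_mod_cast ha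
  have ha0 : (0 : ℝ) < (n : ℝ) := by linarith
  have hla : 0 < Real.log n := Real.log_pos (by linarith)
  have hcard : ArithmeticFunction.cardFactors v = v.primeFactors.card := by
    rw [← (ArithmeticFunction.cardDistinctFactors_eq_cardFactors_iff_squarefree hk0).mpr hsf]
    rfl
  by_contra hcon
  push Not at hcon
  rw [hcard] at hcon
  have hc3 : (6 : ℝ) ≤ (v.primeFactors.card : ℝ) := by exact_mod_cast hcon
  -- log v
  have hlogk : ∑ p ∈ v.primeFactors, Real.log p ≤ 2 * Real.log n := by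
    have h1 : ∑ p ∈ v.primeFactors, Real.log p =
        Real.log ((v : ℕ) : ℝ) := by
      rw [← Real.log_prod]
      · congr 1
        have := Nat.prod_primeFactors_of_squarefree hsf
        rw [← Nat.cast_prod, this]
      · intro p hp
        have := (Nat.prime_of_mem_primeFactors hp).pos
        positivity
    rw [h1]
    have h2 : Real.log ((v : ℕ) : ℝ) ≤ Real.log ((n : ℝ) ^ 2) := by
      apply Real.log_le_log
      · exact_mod_cast hv1
      · exact hv
    rw [Real.log_pow] at h2
    push_cast at h2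
    exact h2
  obtain ⟨om, hom⟩ : ∃ om : ℝ, om = 1 / (100 * u) := ⟨_, rfl⟩
  rw [← hom] at hsum
  have hom0 : 0 < om := by rw [hom]; positivity
  have hej : ∀ j : ℕ, (ejq n om j v : ℝ) =
      ∑ p ∈ v.primeFactors, if p ∈ bq n om j then (1 : ℝ) else 0 := by
    intro j
    rw [Finset.sum_ite_mem, Finset.sum_const, nsmul_eq_mul, mul_one]
    congr 1
    unfold ejq
    congr 1
    ext p
    simp only [mem_filter, mem_inter, Nat.mem_primeFactors]
    constructor
    · rintro ⟨h1, h2⟩
      have : p.Prime := by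
        unfold bq at h1
        simp only [mem_filter] at h1
        exact h1.2.1
      exact ⟨⟨this, h2, hk0⟩, h1⟩
    · rintro ⟨⟨_, h2, _⟩, h1⟩
      exact ⟨h1, h2⟩
  have hpt : ∀ p ∈ v.primeFactors, 1 - Real.log p / (58 / 100 * Real.log n) ≤
      ∑ j ∈ Ico (11 * u) (58 * u), (1 - (j : ℝ) / (58 * u)) *
        (if p ∈ bq n om j then (1 : ℝ) else 0) := by
    intro p hp
    have hpp := Nat.prime_of_mem_primeFactors hp
    have hpd := Nat.dvd_of_mem_primeFactors hp
    have hp0 : (0 : ℝ) < p := by exact_mod_cast hpp.pos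
    have hnn : ∀ j ∈ Ico (11 * u) (58 * u), 0 ≤ (1 - (j : ℝ) / (58 * u)) *
        (if p ∈ bq n om j then (1 : ℝ) else 0) := by
      intro j hj
      rw [mem_Ico] at hj
      apply mul_nonneg
      · rw [sub_nonneg, div_le_one (by positivity)]
        have : (j : ℝ) ≤ ((58 * u : ℕ) : ℝ) := by exact_mod_cast hj.2.le
        push_cast at this; exact this
      · split_ifs <;> norm_num
    by_cases hbig : 58 / 100 * Real.log n ≤ Real.log p
    · have h1 : 1 ≤ Real.log p / (58 / 100 * Real.log n) := by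
        rw [le_div_iff₀ (by positivity)]; linarith
      have h2 := Finset.sum_nonneg hnn
      linarith
    · push Not at hbig
      obtain ⟨t, ht⟩ : ∃ t : ℝ, t = Real.log p / (om * Real.log n) := ⟨_, rfl⟩
      have hlp : 0 ≤ Real.log p := Real.log_nonneg (by exact_mod_cast hpp.one_lt.le)
      have ht0 : 0 ≤ t := by rw [ht]; positivity
      obtain ⟨j, hj⟩ : ∃ j : ℕ, j = ⌊t⌋₊ := ⟨_, rfl⟩
      have hj1 : (j : ℝ) ≤ t := hj ▸ Nat.floor_le ht0
      have hj2 : t < (j : ℝ) + 1 := hj ▸ Nat.lt_floor_add_one t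
      have htl : t * (om * Real.log n) = Real.log p := by
        rw [ht]; field_simp
      have homl : 0 < om * Real.log n := by positivity
      have hlow : (n : ℝ) ^ ((j : ℝ) * om) ≤ (p : ℝ) := by
        rw [← Real.log_le_log_iff (by positivity) hp0, Real.log_rpow ha0, ← htl]
        have := mul_le_mul_of_nonneg_right hj1 homl.le
        linarith
      have hupp : (p : ℝ) < (n : ℝ) ^ (((j : ℝ) + 1) * om) := by
        rw [← Real.log_lt_log_iff hp0 (by positivity), Real.log_rpow ha0, ← htl]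
        have := mul_lt_mul_of_pos_right hj2 homl
        linarith
      have hmem : p ∈ bq n om j := by
        unfold bq
        simp only [mem_filter, mem_range]
        exact ⟨Nat.lt_ceil.mpr hupp, hpp, hlow⟩
      have hjl : 11 * u ≤ j := by
        rw [hj]
        apply Nat.le_floor
        have h1 := hz p hpp hpd
        rw [← Real.log_le_log_iff (by positivity) hp0, Real.log_rpow ha0, ← htl] at h1
        have h2 : (((11 * u : ℕ)) : ℝ) * (om * Real.log n) = 11 / 100 * Real.log n := by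
          rw [hom]; push_cast; field_simp
        rw [← h2] at h1
        exact le_of_mul_le_mul_right h1 homl
      have hjr : j < 58 * u := by
        rw [hj, Nat.floor_lt ht0]
        rw [ht, div_lt_iff₀ homl]
        have : (((58 * u : ℕ)) : ℝ) * (om * Real.log n) = 58 / 100 * Real.log n := by
          rw [hom]; push_cast; field_simp
        rw [this]; exact hbig
      have h1 := Finset.single_le_sum hnn (mem_Ico.mpr ⟨hjl, hjr⟩)
      refine le_trans ?_ h1
      rw [if_pos hmem, mul_one]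
      have h2 : (j : ℝ) / (58 * u) ≤ Real.log p / (58 / 100 * Real.log n) := by
        have h3 : Real.log p / (58 / 100 * Real.log n) = t / (58 * u) := by
          rw [ht, hom]; field_simp
        rw [h3]
        exact div_le_div_of_nonneg_right hj1 (by positivity)
      linarith
  have hfin := Finset.sum_le_sum hpt
  rw [Finset.sum_sub_distrib, Finset.sum_const, nsmul_eq_mul, mul_one, ← Finset.sum_div,
    Finset.sum_comm] at hfin
  have hrew : ∑ j ∈ Ico (11 * u) (58 * u), 392 / 1000 * (1 - (j : ℝ) / (58 * u)) *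
      (ejq n om j v : ℝ) = 392 / 1000 * ∑ j ∈ Ico (11 * u) (58 * u),
        ∑ p ∈ v.primeFactors, (1 - (j : ℝ) / (58 * u)) *
        (if p ∈ bq n om j then (1 : ℝ) else 0) := by
    rw [Finset.mul_sum]
    refine Finset.sum_congr rfl fun j _ => ?_
    rw [hej j, mul_assoc, Finset.mul_sum]
  rw [hrew] at hsum
  have h5 : (∑ p ∈ v.primeFactors, Real.log p) / (58 / 100 * Real.log n) ≤ 200 / 58 := by
    rw [div_le_iff₀ (by positivity)]
    have : 200 / 58 * (58 / 100 * Real.log n) = 2 * Real.log n := by ring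
    linarith
  have h6 : (6 : ℝ) - 200 / 58 ≤ ∑ j ∈ Ico (11 * u) (58 * u),
        ∑ p ∈ v.primeFactors, (1 - (j : ℝ) / (58 * u)) *
        (if p ∈ bq n om j then (1 : ℝ) else 0) := by linarith
  have h7 : (1 : ℝ) ≤ 392 / 1000 * (6 - 200 / 58) := by norm_num
  linarith

theorem hPT5 : StPT5 := by
  intro u n v hu ha hv1 hv hz hsq hsum
  have hk0 : v ≠ 0 := by omega
  have har : (2 : ℝ) ≤ (n : ℝ) := by exact_mod_cast ha
  have ha0 : (0 : ℝ) < (n : ℝ) := by linarith
  by_cases hsf : Squarefree v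
  · exact sqfree_case u n v hu ha hv1 hv hz hsf hsum
  · rw [Nat.squarefree_iff_prime_squarefree] at hsf
    push Not at hsf
    obtain ⟨p, hp, hpd⟩ := hsf
    have hp2 : p ^ 2 ∣ v := by rw [sq]; exact hpd
    obtain ⟨t, ht⟩ := hp2
    have hbig : (n : ℝ) ^ (82 / 100 : ℝ) < (p : ℝ) := by
      by_contra hc
      push Not at hc
      exact hsq p hp hc ⟨t, ht⟩
    have ht0 : t ≠ 0 := by
      rintro rfl
      rw [mul_zero] at ht
      exact hk0 ht
    have hp0 : p ≠ 0 := hp.ne_zero
    have hpos : (0 : ℝ) < (n : ℝ) ^ (82 / 100 : ℝ) := Real.rpow_pos_of_pos ha0 _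
    have ht1 : (t : ℝ) < (n : ℝ) ^ (36 / 100 : ℝ) := by
      have h1 : (p : ℝ) ^ 2 * (t : ℝ) ≤ (n : ℝ) ^ 2 := by
        have : ((v : ℕ) : ℝ) = (p : ℝ) ^ 2 * (t : ℝ) := by rw [ht]; push_cast; ring
        rw [← this]; exact hv
      have h2 : ((n : ℝ) ^ (82 / 100 : ℝ)) ^ 2 < (p : ℝ) ^ 2 := by gcongr
      have h3 : ((n : ℝ) ^ (82 / 100 : ℝ)) ^ 2 * (n : ℝ) ^ (36 / 100 : ℝ) = (n : ℝ) ^ 2 := by
        rw [← Real.rpow_natCast, ← Real.rpow_natCast, ← Real.rpow_mul ha0.le, ← Real.rpow_add ha0]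
        norm_num
      by_contra hc
      push Not at hc
      have h4 : ((n : ℝ) ^ (82 / 100 : ℝ)) ^ 2 * (n : ℝ) ^ (36 / 100 : ℝ) < (p : ℝ) ^ 2 * (t : ℝ) :=
        mul_lt_mul h2 hc (Real.rpow_pos_of_pos ha0 _) (by positivity)
      linarith
    have hΩ : ArithmeticFunction.cardFactors t ≤ 3 := by
      by_contra hc
      push Not at hc
      have h1 := pow_card_le ((n : ℝ) ^ (11 / 100 : ℝ)) (Real.rpow_nonneg ha0.le _) t ht0
        (fun q hq hqt => hz q hq (ht ▸ hqt.mul_left _))
      have h2 : (n : ℝ) ^ (36 / 100 : ℝ) ≤ ((n : ℝ) ^ (11 / 100 : ℝ)) ^ (ArithmeticFunction.cardFactors t) := by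
        rw [← Real.rpow_natCast, ← Real.rpow_mul ha0.le]
        apply Real.rpow_le_rpow_of_exponent_le (by linarith)
        have h4 : (4 : ℝ) ≤ (ArithmeticFunction.cardFactors t : ℝ) := by exact_mod_cast hc
        linarith
      linarith
    rw [ht, ArithmeticFunction.cardFactors_mul (pow_ne_zero 2 hp0) ht0, ArithmeticFunction.cardFactors_pow,
      ArithmeticFunction.cardFactors_apply_prime hp]
    omega

end Pool.Agent.Helper62.KS
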